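import Pool.Agent.N709.UM.Stm2

/-! Leaf UM2/SEL2 for helper709 (helper219). -/

set_option autoImplicit false

open Filter Topology

universe u

namespace Pool.Agent.N219.UM2SEL2

open Pool.Agent.N709.UM

/-- No loss lemma. -/
private lemma noloss {G : Type u} [Group G] (U : Subgroup G) (F : Ultrafilter G) (h1 h2 : G)
    (h : h1 * h2 ∉ U) :
    ∀ᶠ a in (F : Filter G), ∀ᶠ b in (F : Filter G), h1 * (a * b⁻¹) * h2 ∉ U := by
  by_contra hcon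
  have hA : ∀ᶠ a in (F : Filter G), ∀ᶠ b in (F : Filter G), h1 * (a * b⁻¹) * h2 ∈ U := by
    have h3 := Ultrafilter.eventually_not.mpr hcon
    filter_upwards [h3] with a ha
    have h4 := Ultrafilter.eventually_not.mpr ha
    filter_upwards [h4] with b hb
    exact not_not.mp hb
  obtain ⟨a1, ha1⟩ := hA.exists
  obtain ⟨a2, ha2, h12⟩ := (hA.and ha1).exists
  obtain ⟨b, hb1, hb2⟩ := (ha1.and ha2).exists
  apply h
  have e : h1 * h2 = (h1 * (a2 * b⁻¹) * h2) *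
      ((h1 * (a1 * a2⁻¹) * h2)⁻¹ * (h1 * (a1 * b⁻¹) * h2))⁻¹ := by group
  rw [e]
  exact U.mul_mem hb2 (U.inv_mem (U.mul_mem (U.inv_mem h12) hb1))

theorem sel2 : Pool.Agent.N709.UM.Pwc.{u} → Pool.Agent.N709.UM.Sel2.{u} := by
  intro hP G _ _ _ ρ hG F hAI U0 hU0 D hD S hS hSp t ht k
  have ht4 : 0 < t / 4 := by linarith
  have E1 : ∀ᶠ a in (F : Filter G), ∀ᶠ b in (F : Filter G), a * b⁻¹ ∉ U0 := hU0
  have E2 : ∀ᶠ a in (F : Filter G), ∀ c, ρ (a * c * a⁻¹) ≤ ρ c + t / 4 ∧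
      ρ (a⁻¹ * c * a) ≤ ρ c + t / 4 := hAI.inv _ ht4
  have E3 : ∀ᶠ a in (F : Filter G), ∀ c ∈ D, ρ (a * c * a⁻¹ * c⁻¹) < t / 4 ∧
      ρ (a⁻¹ * c * a * c⁻¹) < t / 4 :=
    (eventually_all_finite hD).mpr (fun c _ => hAI.com _ ht4 c)
  have E4 : ∀ᶠ a in (F : Filter G), ∀ s ∈ S, ∀ M ∈ Set.Icc 1 k, ∀ᶠ b in (F : Filter G),
      s.2.1 * (a ^ M * (b ^ M)⁻¹) * s.2.2 ∉ s.1 := by
    refine (eventually_all_finite hS).mpr (fun s hs => ?_)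
    refine (eventually_all_finite (Set.finite_Icc 1 k)).mpr (fun M _ => ?_)
    exact noloss s.1 (F.map (fun x => x ^ M)) s.2.1 s.2.2 (hSp s hs).2
  obtain ⟨a, h1, h2, h3, h4⟩ := (E1.and (E2.and (E3.and E4))).exists
  have E5 : ∀ᶠ b in (F : Filter G), ∀ s ∈ S, ∀ M ∈ Set.Icc 1 k,
      s.2.1 * (a ^ M * (b ^ M)⁻¹) * s.2.2 ∉ s.1 := by
    refine (eventually_all_finite hS).mpr (fun s hs => ?_)
    exact (eventually_all_finite (Set.finite_Icc 1 k)).mpr (fun M hM => h4 s hs M hM)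
  have E6 : ∀ᶠ b in (F : Filter G), ∀ s ∈ S, ∀ M ∈ Set.Icc 1 k,
      s.2.1 * ((a * b⁻¹) ^ M * b ^ M * (a ^ M)⁻¹) * s.2.1⁻¹ ∈ s.1 := by
    refine (eventually_all_finite hS).mpr (fun s hs => ?_)
    refine (eventually_all_finite (Set.finite_Icc 1 k)).mpr (fun M _ => ?_)
    have hT := hP G ρ hG F hAI M a
    have hT2 : Tendsto (fun b : G => s.2.1 * ((a * b⁻¹) ^ M * b ^ M * (a ^ M)⁻¹) * s.2.1⁻¹) F
        (𝓝 (s.2.1 * (a ^ M * (a ^ M)⁻¹) * s.2.1⁻¹)) :=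
      ((hT.mul_const _).const_mul _).mul_const _
    have e1 : s.2.1 * (a ^ M * (a ^ M)⁻¹) * s.2.1⁻¹ = 1 := by group
    rw [e1] at hT2
    exact hT2.eventually ((hSp s hs).1.mem_nhds s.1.one_mem)
  obtain ⟨b, g1, g2, g3, g5, g6⟩ := (h1.and (E2.and (E3.and (E5.and E6)))).exists
  have hpn := hG.pn
  refine ⟨a * b⁻¹, g1, ?_, ?_, ?_⟩
  · intro c
    constructor
    · have e : a * b⁻¹ * c * (a * b⁻¹)⁻¹ = a * (b⁻¹ * c * b) * a⁻¹ := by group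
      rw [e]
      have i1 := (h2 (b⁻¹ * c * b)).1
      have i2 := (g2 c).2
      linarith
    · have e : (a * b⁻¹)⁻¹ * c * (a * b⁻¹) = b * (a⁻¹ * c * a) * b⁻¹ := by group
      rw [e]
      have i1 := (g2 (a⁻¹ * c * a)).1
      have i2 := (h2 c).2
      linarith
  · intro c hc
    constructor
    · have e : a * b⁻¹ * c * (a * b⁻¹)⁻¹ * c⁻¹
          = (a * (b⁻¹ * c * b * c⁻¹) * a⁻¹) * (a * c * a⁻¹ * c⁻¹) := by group
      rw [e]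
      have i0 := hpn.mul (a * (b⁻¹ * c * b * c⁻¹) * a⁻¹) (a * c * a⁻¹ * c⁻¹)
      have i1 := (h2 (b⁻¹ * c * b * c⁻¹)).1
      have i2 := (g3 c hc).2
      have i3 := (h3 c hc).1
      linarith
    · have e : (a * b⁻¹)⁻¹ * c * (a * b⁻¹) * c⁻¹
          = (b * (a⁻¹ * c * a * c⁻¹) * b⁻¹) * (b * c * b⁻¹ * c⁻¹) := by group
      rw [e]
      have i0 := hpn.mul (b * (a⁻¹ * c * a * c⁻¹) * b⁻¹) (b * c * b⁻¹ * c⁻¹)
      have i1 := (g2 (a⁻¹ * c * a * c⁻¹)).1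
      have i2 := (h3 c hc).2
      have i3 := (g3 c hc).1
      linarith
  · intro s hs M hM1 hMk hmem
    have j1 := g5 s hs M ⟨hM1, hMk⟩
    have j2 := g6 s hs M ⟨hM1, hMk⟩
    apply j1
    have e : s.2.1 * (a ^ M * (b ^ M)⁻¹) * s.2.2
        = (s.2.1 * ((a * b⁻¹) ^ M * b ^ M * (a ^ M)⁻¹) * s.2.1⁻¹)⁻¹
          * (s.2.1 * (a * b⁻¹) ^ M * s.2.2) := by
      generalize (a * b⁻¹) ^ M = y
      generalize a ^ M = a'
      generalize b ^ M = b'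
      group
    rw [e]
    exact s.1.mul_mem (s.1.inv_mem j2) hmem

end Pool.Agent.N219.UM2SEL2
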